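import Pool.Agent.Helper808.Hedge.Poly

set_option autoImplicit false

namespace Pool.Agent.Results.MP_7dc3d9_gt.PolynomialHedgehogs

open Pool.Agent.Helper808.Hedge

/-- **Main result.** (1) Two hedgehogs of `ℝ³` whose support functions are restrictions of
polynomials to the unit sphere and which have the same curvature function have, up to sign and up
to a linear form, the same support function. (2) In a curvature-preserving family of such hedgehogs
every member is the image of the first one under an isometry. -/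
theorem result :
    (∀ F G : E → ℝ, Hom1 F → Hom1 G → IsPoly F → IsPoly G → (∀ u ∈ S2, R F u = R G u) →
      (∃ b : E, ∀ x : E, F x = G x + inner ℝ b x) ∨
      (∃ b : E, ∀ x : E, F x = - G x + inner ℝ b x)) ∧
    (∀ H : ℝ → E → ℝ, (∀ t ∈ Set.Icc (0 : ℝ) 1, Hom1 (H t)) →
      (∀ t ∈ Set.Icc (0 : ℝ) 1, IsPoly (H t)) →
      (∀ t ∈ Set.Icc (0 : ℝ) 1, ∀ u ∈ S2, R (H t) u = R (H 0) u) →
      ∀ t ∈ Set.Icc (0 : ℝ) 1, ∃ f : E ≃ᵢ E,
        f '' ((fun u => gradient (H 0) u) '' S2) = (fun u => gradient (H t) u) '' S2) := by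
  refine ⟨fun F G hF hG pF pG h => pair F G hF hG pF pG h, fun H h1 h2 h3 t ht => ?_⟩
  have h0 : (0 : ℝ) ∈ Set.Icc (0 : ℝ) 1 := by simp
  refine JD.congruent (H t) (H 0)
    (pair (H t) (H 0) (h1 t ht) (h1 0 h0) (h2 t ht) (h2 0 h0) (h3 t ht)) ?_
  intro u hu
  obtain ⟨p, hp⟩ := h2 0 h0
  have hu0 : u ≠ 0 := by
    rintro rfl
    simp at hu
  exact (JA1.grad_formula (H 0) (h1 0 h0) p hp u hu0).differentiableAt

end Pool.Agent.Results.MP_7dc3d9_gt.PolynomialHedgehogs
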