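import Pool.Agent.Helper808.Hedge.Poly
import Pool.Agent.Helper808.Hedge.Rev

set_option autoImplicit false

namespace Pool.Agent.Results.MP_7dc3d9_gt.PolynomialOrRevolution

open Pool.Agent.Helper808.Hedge MvPolynomial

theorem B_parallelogram (p q : Pol) :
    B (p + q) (p + q) + B (p - q) (p - q) = 2 * B p p + 2 * B q q := by
  simp only [B, mu, Nn, La, sg, JB1.Eu_add, JB1.Eu_sub, map_add, map_sub, Fin.sum_univ_three]
  ring

/-- Translation of the hedgehog. -/
theorem translate (F G : E → ℝ) (hG : Smooth2 G) (b : E)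
    (h : ∀ x : E, F x = G x + inner ℝ b x) :
    (fun u => gradient F u) '' S2 = (fun y => y + b) '' ((fun u => gradient G u) '' S2) := by
  rw [Set.image_image]
  refine Set.image_congr fun u hu => ?_
  have hu0 : u ≠ 0 := S2_ne hu
  have hd := diffAt hG hu0
  have hF : F = fun x => G x + innerSL ℝ b x := by
    funext x
    rw [h x]
    rfl
  have h1 : HasFDerivAt F (fderiv ℝ G u + innerSL ℝ b) u := by
    rw [hF]
    exact hd.hasFDerivAt.add (innerSL ℝ b).hasFDerivAt
  unfold gradient
  rw [h1.fderiv, map_add]
  congr 1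
  exact (InnerProductSpace.toDual ℝ E).symm_apply_apply b

/-- **Main result.** (1) Two hedgehogs of `ℝ³` with polynomial support functions and the same
curvature function have the same support function up to sign and a linear form. (2) If the mixed
curvature function of two such hedgehogs vanishes, one of the support functions is a linear form.
(3) A curvature-preserving family, all of whose members are polynomial hedgehogs, or all of whose
members are hedgehogs of revolution, consists of translates of one hedgehog. -/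
theorem result :
    (∀ F G : E → ℝ, Hom1 F → Hom1 G → IsPoly F → IsPoly G → (∀ u ∈ S2, R F u = R G u) →
      (∃ b : E, ∀ x : E, F x = G x + inner ℝ b x) ∨
      (∃ b : E, ∀ x : E, F x = - G x + inner ℝ b x)) ∧
    (∀ F G : E → ℝ, Hom1 F → Hom1 G → IsPoly F → IsPoly G →
      (∀ u ∈ S2, R (fun x => F x + G x) u - R F u - R G u = 0) →
      (∃ b : E, ∀ x : E, F x = inner ℝ b x) ∨ (∃ b : E, ∀ x : E, G x = inner ℝ b x)) ∧
    (∀ H : ℝ → E → ℝ, Family H →
      ((∀ t ∈ Set.Icc (0 : ℝ) 1, IsPoly (H t)) ∨ (∀ t ∈ Set.Icc (0 : ℝ) 1, IsRev (H t))) →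
      ∀ t ∈ Set.Icc (0 : ℝ) 1, ∃ b : E, (∀ x : E, H t x = H 0 x + inner ℝ b x) ∧
        (fun u => gradient (H t) u) '' S2 =
          (fun y => y + b) '' ((fun u => gradient (H 0) u) '' S2)) := by
  have h0 : (0 : ℝ) ∈ Set.Icc (0 : ℝ) 1 := by simp
  refine ⟨fun F G hF hG pF pG h => pair F G hF hG pF pG h, ?_, ?_⟩
  · intro F G hF hG pF pG h
    obtain ⟨p, hp⟩ := pF
    obtain ⟨q, hq⟩ := pG
    have hA : Hom1 (fun x => F x + G x) := fun x c hc => by
      simp only [hF x c hc, hG x c hc]; ring
    have hB : Hom1 (fun x => F x - G x) := fun x c hc => by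
      simp only [hF x c hc, hG x c hc]; ring
    have pA : ∀ u ∈ S2, F u + G u = eval (fun i => u i) (p + q) := fun u hu => by
      rw [hp u hu, hq u hu, map_add]
    have pB : ∀ u ∈ S2, F u - G u = eval (fun i => u i) (p - q) := fun u hu => by
      rw [hp u hu, hq u hu, map_sub]
    have hR : ∀ u ∈ S2, R (fun x => F x + G x) u = R (fun x => F x - G x) u := by
      intro u hu
      have e1 := R_formula _ hA (p + q) pA u hu
      have e2 := R_formula _ hB (p - q) pB u hu
      have e3 := R_formula F hF p hp u hu
      have e4 := R_formula G hG q hq u hu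
      have e5 := congrArg (eval (fun i => u i)) (B_parallelogram p q)
      simp only [map_add, map_mul, map_ofNat] at e5
      rw [← e1, ← e2, ← e3, ← e4] at e5
      have := h u hu
      linarith
    rcases pair _ _ hA hB ⟨p + q, pA⟩ ⟨p - q, pB⟩ hR with ⟨b, hb⟩ | ⟨b, hb⟩
    · right
      refine ⟨(1 / 2 : ℝ) • b, fun x => ?_⟩
      have := hb x
      rw [inner_smul_left]
      simp only [conj_trivial]
      linarith
    · left
      refine ⟨(1 / 2 : ℝ) • b, fun x => ?_⟩
      have := hb x
      rw [inner_smul_left]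
      simp only [conj_trivial]
      linarith
  · intro H hH hcase
    have key : ∀ t ∈ Set.Icc (0 : ℝ) 1, ∃ b : E, ∀ x : E, H t x = H 0 x + inner ℝ b x := by
      rcases hcase with hP | hV
      · refine JY3.sign_plus H hH.hom ?_ ?_
        · intro x hx
          refine hH.cont0.comp (f := fun t : ℝ => (t, x)) (Continuous.continuousOn (by fun_prop)) ?_
          intro t ht
          exact ⟨ht, hx⟩
        · intro t ht
          exact pair (H t) (H 0) (hH.hom t ht) (hH.hom 0 h0) (hP t ht) (hP 0 h0) (hH.curv t ht)
      · exact revolution H hH hV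
    intro t ht
    obtain ⟨b, hb⟩ := key t ht
    exact ⟨b, hb, translate (H t) (H 0) (hH.smooth 0 h0) b hb⟩

end Pool.Agent.Results.MP_7dc3d9_gt.PolynomialOrRevolution
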